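import Pool.Agent.Q43.FC.Exact

/-!
# The Frobenius and the nilpotent parts
-/

set_option autoImplicit false
set_option linter.unusedVariables false
set_option linter.unusedSectionVars false

namespace Q43.FC

open Finset

variable {R : Type*} [CommRing R] {d : ℕ} (p : ℕ) [hp : Fact p.Prime]

/-- The `e`-th power of the Frobenius of a ring in which `p = 0`. -/
def fr {A : Type*} [CommRing A] (hA : (p : A) = 0) (e : ℕ) : A →+* A where
  toFun z := z ^ p ^ e
  map_one' := one_pow _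
  map_mul' a b := mul_pow _ _ _
  map_zero' := zero_pow (pow_ne_zero _ hp.out.ne_zero)
  map_add' a b := by
    induction e with
    | zero => simp
    | succ e ih =>
      rw [pow_succ, pow_mul, ih, pow_mul, pow_mul]
      rw [add_pow_prime_eq hp.out, hA]
      ring

variable [hc : CharP R p]

include hc in
theorem cast_zero {A : Type*} [CommRing A] [Algebra R A] : (p : A) = 0 := by
  rw [← map_natCast (algebraMap R A), CharP.cast_eq_zero, map_zero]

theorem sgn_pow (k : Fin d) (S : Finset (Fin d)) (e : ℕ) : sgn R k S ^ p ^ e = sgn R k S := by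
  have h : fr p (CharP.cast_eq_zero R p) e (sgn R k S) = sgn R k S := by
    rw [sgn, map_pow, map_neg, map_one]
  exact h

variable {x : Fin d → R} {V V' : Finset (Fin d) → Finset (Fin d)}

/-- The coefficients of the `e`-th complex. -/
def ae (a : Fin d → R) (e : ℕ) : Fin d → R := fun k => a k ^ p ^ e

/-- The `e`-th power of the Frobenius. -/
noncomputable def Fr (x : Fin d → R) (V : Finset (Fin d) → Finset (Fin d)) (e : ℕ) : Co x V →+ Co x V where
  toFun c := fun S => c S ^ p ^ e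
  map_zero' := by
    funext S
    exact zero_pow (pow_ne_zero _ hp.out.ne_zero)
  map_add' c c' := by
    funext S
    exact (fr p (cast_zero (R := R) p) e).map_add (c S) (c' S)

theorem Fr_apply (e : ℕ) (c : Co x V) (S : Finset (Fin d)) : Fr p x V e c S = c S ^ p ^ e := rfl

theorem Fr_smul (e : ℕ) (r : R) (c : Co x V) : Fr p x V e (r • c) = r ^ p ^ e • Fr p x V e c := by
  funext S
  rw [Fr_apply, Pi.smul_apply, Pi.smul_apply, Fr_apply, smul_pow]

theorem Fr_add (e f : ℕ) (c : Co x V) : Fr p x V f (Fr p x V e c) = Fr p x V (e + f) c := by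
  funext S
  rw [Fr_apply, Fr_apply, Fr_apply, ← pow_mul, pow_add]

theorem ae_ae (a : Fin d → R) (e f : ℕ) : ae p (ae p a e) f = ae p a (e + f) := by
  funext k
  simp only [ae]
  rw [← pow_mul, pow_add]

theorem Fr_D (hV : Monotone V) (a : Fin d → R) (e : ℕ) (c : Co x V) :
    Fr p x V e (D x hV a c) = D x hV (ae p a e) (Fr p x V e c) := by
  funext S
  rw [Fr_apply, D_apply, D_apply]
  have h := map_sum (fr p (cast_zero (R := R) (A := Loc x (V S)) p) e)
    (fun k => (sgn R k S * a k) • res x (hV (erase_subset k S)) (c (S.erase k))) S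
  refine h.trans (sum_congr rfl fun k _ => ?_)
  change ((sgn R k S * a k) • res x (hV (erase_subset k S)) (c (S.erase k))) ^ p ^ e = _
  rw [smul_pow, mul_pow, sgn_pow, Fr_apply, map_pow]
  rfl

theorem Fr_u {j : Fin d} (h : Step j V V') (e : ℕ) (c : Co x V) :
    Fr p x V' e (u x h c) = u x h (Fr p x V e c) := by
  funext S
  rw [Fr_apply]
  by_cases hj : j ∈ S
  · rw [u_pos h _ hj, u_pos h _ hj, smul_pow, sgn_pow, Fr_apply, map_pow]
  · rw [u_neg h _ hj, u_neg h _ hj, zero_pow (pow_ne_zero _ hp.out.ne_zero)]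

theorem Fr_v {j : Fin d} (h : Step j V V') {q : ℕ} (e : ℕ) (c : Co x V') :
    Fr p x V e (v x h (x j ^ q) c) = v x h (x j ^ (q * p ^ e)) (Fr p x V' e c) := by
  funext S
  rw [Fr_apply]
  by_cases hj : j ∈ S
  · rw [v_pos h _ _ hj, v_pos h _ _ hj, mul_pow, Fr_apply, pow_mul, map_pow _ _ (p ^ e),
      ← Ring.inverse_pow, map_pow (res x (h.le S))]
  · rw [v_neg h _ _ hj, v_neg h _ _ hj, Fr_apply, map_pow]

theorem Fr_Deg {e s : ℕ} {c : Co x V} (hc' : c ∈ Deg x V s) : Fr p x V e c ∈ Deg x V s := by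
  intro S hS
  rw [Fr_apply, hc' S hS, zero_pow (pow_ne_zero _ hp.out.ne_zero)]

theorem Fr_Pre {e s : ℕ} {c : Co x V} (hc' : c ∈ Pre x V s) : Fr p x V e c ∈ Pre x V s := by
  intro S hS
  rw [Fr_apply, hc' S hS, zero_pow (pow_ne_zero _ hp.out.ne_zero)]

theorem Fr_Z {hV : Monotone V} {a : Fin d → R} {e s : ℕ} {c : Co x V} (hc' : c ∈ Z x hV a s) :
    Fr p x V e c ∈ Z x hV (ae p a e) s := by
  refine ⟨Fr_Deg p hc'.1, ?_⟩
  rw [SetLike.mem_coe, LinearMap.mem_ker, ← Fr_D, hc'.2, map_zero]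

theorem Fr_B {hV : Monotone V} {a : Fin d → R} {e s : ℕ} {c : Co x V} (hc' : c ∈ B x hV a s) :
    Fr p x V e c ∈ B x hV (ae p a e) s := by
  obtain ⟨b, hb, rfl⟩ := hc'
  exact ⟨Fr p x V e b, Fr_Pre p hb, (Fr_D p hV a e b).symm⟩

theorem Fr_B_le {hV : Monotone V} {a : Fin d → R} {e f s : ℕ} (hef : e ≤ f) {c : Co x V}
    (hc' : Fr p x V e c ∈ B x hV (ae p a e) s) : Fr p x V f c ∈ B x hV (ae p a f) s := by
  obtain ⟨g, rfl⟩ := Nat.exists_eq_add_of_le hef
  rw [← Fr_add, ← ae_ae]
  exact Fr_B p hc'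

/-- The cocycles whose class is nilpotent. -/
noncomputable def NZ (x : Fin d → R) {V : Finset (Fin d) → Finset (Fin d)} (hV : Monotone V)
    (a : Fin d → R) (s : ℕ) : Submodule R (Co x V) where
  carrier := {z | z ∈ Z x hV a s ∧ ∃ e, Fr p x V e z ∈ B x hV (ae p a e) s}
  zero_mem' := ⟨Submodule.zero_mem _, 0, by rw [map_zero]; exact Submodule.zero_mem _⟩
  add_mem' := by
    rintro z w ⟨hz, e, he⟩ ⟨hw, f, hf⟩
    refine ⟨Submodule.add_mem _ hz hw, e + f, ?_⟩
    rw [map_add]
    exact Submodule.add_mem _ (Fr_B_le p (Nat.le_add_right e f) he)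
      (Fr_B_le p (Nat.le_add_left f e) hf)
  smul_mem' := by
    rintro r z ⟨hz, e, he⟩
    refine ⟨Submodule.smul_mem _ r hz, e, ?_⟩
    rw [Fr_smul]
    exact Submodule.smul_mem _ _ he

theorem B_le_NZ (hV : Monotone V) (a : Fin d → R) (s : ℕ) : B x hV a s ≤ NZ p x hV a s := by
  intro z hz
  exact ⟨B_le_Z hV a s hz, 0, Fr_B p hz⟩

/-- The length of the subquotient `P / (P ∩ Q)`. -/
noncomputable def quotLength {M : Type*} [AddCommGroup M] [Module R M] (P Q : Submodule R M) : ℕ∞ :=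
  Module.length R (P ⧸ Q.submoduleOf P)

/-- The length of the nilpotent part. -/
noncomputable def len (x : Fin d → R) {V : Finset (Fin d) → Finset (Fin d)} (hV : Monotone V)
    (a : Fin d → R) (s : ℕ) : ℕ∞ :=
  quotLength (NZ p x hV a s) (B x hV a s)

section Length

variable {M M' W : Type*} [AddCommGroup M] [Module R M] [AddCommGroup M'] [Module R M']
  [AddCommGroup W] [Module R W]

omit hp hc in
theorem length_le_add (f : M →ₗ[R] M') (g : M' →ₗ[R] W) (h : LinearMap.ker g ≤ LinearMap.range f) :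
    Module.length R M' ≤ Module.length R M + Module.length R W := by
  have h1 := Module.length_eq_add_of_exact (LinearMap.ker g).subtype g.rangeRestrict
    (Submodule.subtype_injective _) g.surjective_rangeRestrict (by
      rw [LinearMap.exact_iff, LinearMap.ker_rangeRestrict, Submodule.range_subtype])
  rw [h1]
  have h2 : Module.length R (LinearMap.ker g) ≤ Module.length R (LinearMap.range f) :=
    Module.length_le_of_injective (Submodule.inclusion h) (Submodule.inclusion_injective h)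
  have h3 : Module.length R (LinearMap.range f) ≤ Module.length R M :=
    Module.length_le_of_surjective f.rangeRestrict f.surjective_rangeRestrict
  have h4 : Module.length R (LinearMap.range g) ≤ Module.length R W :=
    Module.length_le_of_injective (LinearMap.range g).subtype (Submodule.subtype_injective _)
  exact add_le_add (h2.trans h3) h4

/-- The map induced on subquotients. -/
def subq (f : M →ₗ[R] M') {P Q : Submodule R M} {P' Q' : Submodule R M'}
    (h1 : ∀ z ∈ P, f z ∈ P') (h2 : ∀ z ∈ Q, f z ∈ Q') :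
    (P ⧸ Q.submoduleOf P) →ₗ[R] (P' ⧸ Q'.submoduleOf P') :=
  Submodule.mapQ _ _ (f.restrict h1) (by
    intro z hz
    exact h2 _ hz)

omit hp hc in
theorem subq_mk (f : M →ₗ[R] M') {P Q : Submodule R M} {P' Q' : Submodule R M'}
    (h1 : ∀ z ∈ P, f z ∈ P') (h2 : ∀ z ∈ Q, f z ∈ Q') (z : P) :
    subq f h1 h2 (Submodule.Quotient.mk z) = Submodule.Quotient.mk ⟨f z, h1 z z.2⟩ := rfl

omit hp hc in
theorem length_step {NZ' B' : Submodule R M'} {NZ B NZ1 B1 : Submodule R M} (v : M' →ₗ[R] M)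
    (u : M →ₗ[R] M') (hv : ∀ z ∈ NZ', v z ∈ NZ) (hvB : ∀ z ∈ B', v z ∈ B)
    (hu : ∀ z ∈ NZ1, u z ∈ NZ') (huB : ∀ z ∈ B1, u z ∈ B')
    (hex : ∀ z ∈ NZ', v z ∈ B → ∃ z1 ∈ NZ1, z - u z1 ∈ B') :
    quotLength NZ' B' ≤ quotLength NZ1 B1 + quotLength NZ B := by
  apply length_le_add (subq u hu huB) (subq v hv hvB)
  intro z hz
  obtain ⟨z, rfl⟩ := Submodule.Quotient.mk_surjective _ z
  rw [LinearMap.mem_ker, subq_mk, Submodule.Quotient.mk_eq_zero] at hz
  obtain ⟨z1, hz1, hz2⟩ := hex z z.2 hz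
  refine ⟨Submodule.Quotient.mk ⟨z1, hz1⟩, ?_⟩
  rw [subq_mk, Submodule.Quotient.eq]
  have h3 := Submodule.neg_mem _ hz2
  rw [neg_sub] at h3
  exact h3

omit hp hc in
theorem length_inj (f : M →ₗ[R] M') {P Q : Submodule R M} {P' Q' : Submodule R M'}
    (h1 : ∀ z ∈ P, f z ∈ P') (h2 : ∀ z ∈ Q, f z ∈ Q') (h3 : ∀ z ∈ P, f z ∈ Q' → z ∈ Q) :
    quotLength P Q ≤ quotLength P' Q' := by
  apply Module.length_le_of_injective (subq f h1 h2)
  rw [← LinearMap.ker_eq_bot, eq_bot_iff]
  intro z hz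
  obtain ⟨z, rfl⟩ := Submodule.Quotient.mk_surjective _ z
  rw [LinearMap.mem_ker, subq_mk, Submodule.Quotient.mk_eq_zero] at hz
  rw [Submodule.mem_bot, Submodule.Quotient.mk_eq_zero]
  exact h3 z z.2 hz

end Length

end Q43.FC
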