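import Mathlib

/-!
# Cech-Koszul complexes and the Frobenius

For a sequence `x : Fin d → R`, `Loc x S` is the localization of `R` at the product of the `x k`,
`k ∈ S`. The complex `Co x V` has one component for every set `S` of indices, of degree the size of
`S`, with values in `Loc x (V S)`; the differential is
`(D a c) S = ∑ k ∈ S, (-1)^(number of l ∈ S with l < k) • a k • c (S \ {k})`.
For `V = id` and `a = 1` it is the Cech complex of `x`; for `V = ∅` and `a = x` it is the Koszul complex.
-/

set_option autoImplicit false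
set_option linter.unusedVariables false

namespace Q43.FC

open Finset

variable {R : Type*} [CommRing R] {d : ℕ}

/-- The localization `R_{x_S}`, `x_S = ∏ k ∈ S, x k`. -/
abbrev Loc (x : Fin d → R) (S : Finset (Fin d)) : Type _ := Localization.Away (∏ k ∈ S, x k)

theorem isUnit_prod (x : Fin d → R) {S T : Finset (Fin d)} (h : S ⊆ T) :
    IsUnit (algebraMap R (Loc x T) (∏ k ∈ S, x k)) := by
  have h1 : IsUnit (algebraMap R (Loc x T) (∏ k ∈ T, x k)) :=
    IsLocalization.Away.algebraMap_isUnit (S := Loc x T) (∏ k ∈ T, x k)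
  exact isUnit_of_dvd_unit (map_dvd _ (prod_dvd_prod_of_subset _ _ _ h)) h1

theorem isUnit_pow (x : Fin d → R) {S T : Finset (Fin d)} (h : S ⊆ T)
    (y : Submonoid.powers (∏ k ∈ S, x k)) : IsUnit (Algebra.ofId R (Loc x T) y) := by
  obtain ⟨y, n, rfl⟩ := y
  simp only [map_pow]
  exact (isUnit_prod x h).pow n

/-- The canonical map `R_{x_S} → R_{x_T}` for `S ⊆ T`. -/
noncomputable def res (x : Fin d → R) {S T : Finset (Fin d)} (h : S ⊆ T) : Loc x S →ₐ[R] Loc x T :=
  IsLocalization.liftAlgHom (M := Submonoid.powers (∏ k ∈ S, x k)) (f := Algebra.ofId R (Loc x T))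
    (isUnit_pow x h)

theorem res_res (x : Fin d → R) {S T U : Finset (Fin d)} (h : S ⊆ T) (h' : T ⊆ U) (z : Loc x S) :
    res x h' (res x h z) = res x (h.trans h') z := by
  have h1 : (res x h').comp (res x h) = res x (h.trans h') :=
    (IsLocalization.algHom_subsingleton (R := R) (Submonoid.powers (∏ k ∈ S, x k))).elim _ _
  rw [← h1]
  rfl

theorem res_self (x : Fin d → R) {S : Finset (Fin d)} (h : S ⊆ S) (z : Loc x S) :
    res x h z = z := by
  have h1 : res x h = AlgHom.id R (Loc x S) :=
    (IsLocalization.algHom_subsingleton (R := R) (Submonoid.powers (∏ k ∈ S, x k))).elim _ _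
  rw [h1]
  rfl

/-- The sign `(-1)^(number of l ∈ S with l < k)`. -/
def sgn (R : Type*) [CommRing R] (k : Fin d) (S : Finset (Fin d)) : R :=
  (-1) ^ (S.filter fun l => l < k).card

/-- The cochains: a component in `R_{x_{V S}}` for every set `S` of indices. -/
abbrev Co (x : Fin d → R) (V : Finset (Fin d) → Finset (Fin d)) : Type _ :=
  (S : Finset (Fin d)) → Loc x (V S)

/-- The value of the differential on the cochain `c`. -/
noncomputable def Dfun (x : Fin d → R) {V : Finset (Fin d) → Finset (Fin d)} (hV : Monotone V)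
    (a : Fin d → R) (c : Co x V) : Co x V :=
  fun S => ∑ k ∈ S, (sgn R k S * a k) • res x (hV (erase_subset k S)) (c (S.erase k))

theorem Dfun_add (x : Fin d → R) {V : Finset (Fin d) → Finset (Fin d)} (hV : Monotone V)
    (a : Fin d → R) (c c' : Co x V) : Dfun x hV a (c + c') = Dfun x hV a c + Dfun x hV a c' := by
  funext S
  simp only [Dfun, Pi.add_apply, map_add, smul_add, sum_add_distrib]

theorem Dfun_smul (x : Fin d → R) {V : Finset (Fin d) → Finset (Fin d)} (hV : Monotone V)
    (a : Fin d → R) (r : R) (c : Co x V) : Dfun x hV a (r • c) = r • Dfun x hV a c := by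
  funext S
  simp only [Dfun, Pi.smul_apply, map_smul, smul_sum]
  exact sum_congr rfl fun k _ => smul_comm _ _ _

/-- The differential. -/
noncomputable def D (x : Fin d → R) {V : Finset (Fin d) → Finset (Fin d)} (hV : Monotone V)
    (a : Fin d → R) : Co x V →ₗ[R] Co x V where
  toFun := Dfun x hV a
  map_add' := Dfun_add x hV a
  map_smul' := Dfun_smul x hV a

theorem D_apply (x : Fin d → R) {V : Finset (Fin d) → Finset (Fin d)} (hV : Monotone V)
    (a : Fin d → R) (c : Co x V) (S : Finset (Fin d)) :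
    D x hV a c S = ∑ k ∈ S, (sgn R k S * a k) • res x (hV (erase_subset k S)) (c (S.erase k)) := rfl

theorem sgn_sq (k : Fin d) (S : Finset (Fin d)) : sgn R k S * sgn R k S = 1 := by
  rw [sgn, ← mul_pow]
  simp

theorem filter_erase_lt (k l : Fin d) (S : Finset (Fin d)) :
    ((S.erase l).filter fun m => m < k) = (S.filter fun m => m < k).erase l := by
  ext m
  simp only [mem_filter, mem_erase]
  tauto

theorem sgn_erase_lt {k l : Fin d} {S : Finset (Fin d)} (hl : l ∈ S) (h : l < k) :
    sgn R k (S.erase l) = - sgn R k S := by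
  rw [sgn, sgn, filter_erase_lt]
  have h1 : l ∈ S.filter fun m => m < k := mem_filter.2 ⟨hl, h⟩
  have h2 := card_erase_add_one h1
  rw [← h2, pow_succ]
  ring

theorem sgn_erase_ge {k l : Fin d} {S : Finset (Fin d)} (h : ¬ l < k) :
    sgn R k (S.erase l) = sgn R k S := by
  rw [sgn, sgn, filter_erase_lt, erase_eq_of_notMem]
  rw [mem_filter]
  exact fun h' => h h'.2

/-- The sign rule. -/
theorem sgn_anti {k l : Fin d} {S : Finset (Fin d)} (hk : k ∈ S) (hl : l ∈ S) (h : k ≠ l) :
    sgn R k S * sgn R l (S.erase k) = - (sgn R l S * sgn R k (S.erase l)) := by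
  rcases lt_or_gt_of_ne h with h1 | h1
  · rw [sgn_erase_lt hk h1, sgn_erase_ge (not_lt.2 h1.le)]
    ring
  · rw [sgn_erase_lt hl h1, sgn_erase_ge (not_lt.2 h1.le)]
    ring

theorem sum_erase_anti {ι M : Type*} [DecidableEq ι] [AddCommGroup M] (S : Finset ι) (f : ι → ι → M)
    (h : ∀ k ∈ S, ∀ l ∈ S, k ≠ l → f k l + f l k = 0) :
    ∑ k ∈ S, ∑ l ∈ S.erase k, f k l = 0 := by
  rw [sum_sigma']
  apply sum_involution (fun p _ => ⟨p.2, p.1⟩)
  · rintro ⟨k, l⟩ hp
    rw [mem_sigma, mem_erase] at hp
    exact h k hp.1 l hp.2.2 (Ne.symm hp.2.1)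
  · rintro ⟨k, l⟩ hp _ he
    rw [mem_sigma, mem_erase] at hp
    simp only [Sigma.mk.injEq, heq_eq_eq] at he
    exact hp.2.1 he.1
  · rintro ⟨k, l⟩ _
    rfl
  · rintro ⟨k, l⟩ hp
    rw [mem_sigma, mem_erase] at hp ⊢
    exact ⟨hp.2.2, Ne.symm hp.2.1, hp.1⟩

theorem res_congr {x : Fin d → R} {V : Finset (Fin d) → Finset (Fin d)} (c : Co x V)
    {S T U : Finset (Fin d)} (h : V S ⊆ U) (h' : V T ⊆ U) (e : S = T) :
    res x h (c S) = res x h' (c T) := by
  subst e
  rfl

theorem D_D (x : Fin d → R) {V : Finset (Fin d) → Finset (Fin d)} (hV : Monotone V)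
    (a : Fin d → R) (c : Co x V) : D x hV a (D x hV a c) = 0 := by
  funext S
  rw [D_apply, Pi.zero_apply]
  simp_rw [D_apply, map_sum, map_smul, smul_sum, res_res, smul_smul]
  apply sum_erase_anti S (fun k l => ((sgn R k S * a k) * (sgn R l (S.erase k) * a l)) •
    res x (hV (((erase_subset l (S.erase k))).trans (erase_subset k S))) (c ((S.erase k).erase l)))
  intro k hk l hl hkl
  rw [res_congr c (S := (S.erase l).erase k) (T := (S.erase k).erase l) _
    (hV (((erase_subset l (S.erase k))).trans (erase_subset k S))) erase_right_comm, ← add_smul]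
  have h1 := sgn_anti (R := R) hk hl hkl
  have h2 : sgn R k S * a k * (sgn R l (S.erase k) * a l) +
      sgn R l S * a l * (sgn R k (S.erase l) * a k) = 0 := by
    linear_combination (a k * a l) * h1
  rw [h2, zero_smul]

end Q43.FC
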