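import Pool.Agent.Q43.FC.Maps

/-!
# Exactness
-/

set_option autoImplicit false
set_option linter.unusedVariables false

namespace Q43.FC

open Finset

variable {R : Type*} [CommRing R] {d : ℕ}

/-- `c` is a cochain of degree `s`. -/
def IsDeg {x : Fin d → R} {V : Finset (Fin d) → Finset (Fin d)} (s : ℕ) (c : Co x V) : Prop :=
  ∀ S : Finset (Fin d), S.card ≠ s → c S = 0

/-- `c` is a cochain of degree `s - 1` (`c = 0` if `s = 0`). -/
def IsPre {x : Fin d → R} {V : Finset (Fin d) → Finset (Fin d)} (s : ℕ) (c : Co x V) : Prop :=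
  ∀ S : Finset (Fin d), S.card + 1 ≠ s → c S = 0

section

variable {x : Fin d → R} {V : Finset (Fin d) → Finset (Fin d)} {s : ℕ}

theorem IsDeg.add {c c' : Co x V} (h : IsDeg s c) (h' : IsDeg s c') : IsDeg s (c + c') := by
  intro S hS
  rw [Pi.add_apply, h S hS, h' S hS, add_zero]

theorem IsDeg.zero : IsDeg s (0 : Co x V) := fun S _ => rfl

theorem IsDeg.smul (r : R) {c : Co x V} (h : IsDeg s c) : IsDeg s (r • c) := by
  intro S hS
  rw [Pi.smul_apply, h S hS, smul_zero]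

theorem IsPre.add {c c' : Co x V} (h : IsPre s c) (h' : IsPre s c') : IsPre s (c + c') := by
  intro S hS
  rw [Pi.add_apply, h S hS, h' S hS, add_zero]

theorem IsPre.zero : IsPre s (0 : Co x V) := fun S _ => rfl

theorem IsPre.smul (r : R) {c : Co x V} (h : IsPre s c) : IsPre s (r • c) := by
  intro S hS
  rw [Pi.smul_apply, h S hS, smul_zero]

end

/-- The cochains of degree `s`. -/
def Deg (x : Fin d → R) (V : Finset (Fin d) → Finset (Fin d)) (s : ℕ) : Submodule R (Co x V) where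
  carrier := {c | IsDeg s c}
  add_mem' := IsDeg.add
  zero_mem' := IsDeg.zero
  smul_mem' := fun r _ => IsDeg.smul r

/-- The cochains of degree `s - 1` (only `0` if `s = 0`). -/
def Pre (x : Fin d → R) (V : Finset (Fin d) → Finset (Fin d)) (s : ℕ) : Submodule R (Co x V) where
  carrier := {c | IsPre s c}
  add_mem' := IsPre.add
  zero_mem' := IsPre.zero
  smul_mem' := fun r _ => IsPre.smul r

/-- The cocycles of degree `s`. -/
noncomputable def Z (x : Fin d → R) {V : Finset (Fin d) → Finset (Fin d)} (hV : Monotone V)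
    (a : Fin d → R) (s : ℕ) : Submodule R (Co x V) :=
  Deg x V s ⊓ LinearMap.ker (D x hV a)

/-- The coboundaries of degree `s`. -/
noncomputable def B (x : Fin d → R) {V : Finset (Fin d) → Finset (Fin d)} (hV : Monotone V)
    (a : Fin d → R) (s : ℕ) : Submodule R (Co x V) :=
  (Pre x V s).map (D x hV a)

variable {x : Fin d → R} {j : Fin d} {V V' : Finset (Fin d) → Finset (Fin d)}

theorem mem_Deg {s : ℕ} {c : Co x V} :
    c ∈ Deg x V s ↔ ∀ S : Finset (Fin d), S.card ≠ s → c S = 0 := Iff.rfl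

theorem mem_Pre {s : ℕ} {c : Co x V} :
    c ∈ Pre x V s ↔ ∀ S : Finset (Fin d), S.card + 1 ≠ s → c S = 0 := Iff.rfl

theorem mem_Pre_succ {s : ℕ} {c : Co x V} : c ∈ Pre x V (s + 1) ↔ c ∈ Deg x V s := by
  rw [mem_Pre, mem_Deg]
  constructor
  · exact fun h S hS => h S (by omega)
  · exact fun h S hS => h S (by omega)

theorem mem_Pre_zero {c : Co x V} : c ∈ Pre x V 0 ↔ c = 0 := by
  rw [mem_Pre]
  constructor
  · exact fun h => funext fun S => h S (by omega)
  · rintro rfl S _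
    rfl

theorem mem_Z {hV : Monotone V} {a : Fin d → R} {s : ℕ} {c : Co x V} :
    c ∈ Z x hV a s ↔ c ∈ Deg x V s ∧ D x hV a c = 0 := Iff.rfl

theorem mem_B {hV : Monotone V} {a : Fin d → R} {s : ℕ} {c : Co x V} :
    c ∈ B x hV a s ↔ ∃ b ∈ Pre x V s, D x hV a b = c := Iff.rfl

theorem D_mem_Deg {hV : Monotone V} {a : Fin d → R} {s : ℕ} {c : Co x V} (hc : c ∈ Pre x V s) :
    D x hV a c ∈ Deg x V s := by
  intro S hS
  rw [D_apply]
  apply sum_eq_zero
  intro k hk
  rw [hc (S.erase k) (by rw [card_erase_add_one hk]; exact hS), map_zero, smul_zero]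

theorem B_le_Z (hV : Monotone V) (a : Fin d → R) (s : ℕ) : B x hV a s ≤ Z x hV a s := by
  rintro _ ⟨b, hb, rfl⟩
  exact ⟨D_mem_Deg hb, D_D x hV a b⟩

variable (h : Step j V V')

theorem u_mem {s : ℕ} {c : Co x V} (hc : c ∈ Pre x V s) : u x h c ∈ Deg x V' s := by
  intro S hS
  by_cases hj : j ∈ S
  · rw [u_pos h _ hj, hc (S.erase j) (by rw [card_erase_add_one hj]; exact hS), map_zero, smul_zero]
  · rw [u_neg h _ hj]

theorem t_mem {s : ℕ} {c : Co x V'} (hc : c ∈ Deg x V' s) : t x h c ∈ Pre x V s := by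
  intro S hS
  by_cases hj : j ∈ S
  · rw [t_neg h _ hj]
  · rw [t_pos h _ hj, hc (insert j S) (by rw [card_insert_of_notMem hj]; exact hS), map_zero,
      smul_zero]

theorem i0_mem {s : ℕ} {c : Co x V} (hc : c ∈ Deg x V s) : i0 x h c ∈ Deg x V' s := by
  intro S hS
  by_cases hj : j ∈ S
  · rw [i0_neg h _ hj]
  · rw [i0_pos h _ hj, hc S hS, map_zero]

theorem p0_mem {s : ℕ} {c : Co x V'} (hc : c ∈ Deg x V' s) : p0 x h c ∈ Deg x V s := by
  intro S hS
  by_cases hj : j ∈ S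
  · rw [p0_neg h _ hj]
  · rw [p0_pos h _ hj, hc S hS, map_zero]

theorem v_mem (y : R) {s : ℕ} {c : Co x V'} (hc : c ∈ Deg x V' s) : v x h y c ∈ Deg x V s := by
  intro S hS
  by_cases hj : j ∈ S
  · rw [v_pos h _ _ hj, hc S hS, map_zero, mul_zero]
  · rw [v_neg h _ _ hj, hc S hS, map_zero]

theorem v_mem_Pre (y : R) {s : ℕ} {c : Co x V'} (hc : c ∈ Pre x V' s) : v x h y c ∈ Pre x V s := by
  intro S hS
  by_cases hj : j ∈ S
  · rw [v_pos h _ _ hj, hc S hS, map_zero, mul_zero]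
  · rw [v_neg h _ _ hj, hc S hS, map_zero]

theorem P0_mem {s : ℕ} {c : Co x V} (hc : c ∈ Deg x V s) : P0 x j V c ∈ Deg x V s := by
  intro S hS
  by_cases hj : j ∈ S
  · rw [P0_neg _ hj]
  · rw [P0_pos _ hj, hc S hS]

variable {a a' : Fin d → R} {q : ℕ} {s : ℕ}

theorem u_Z (ha' : a' = Function.update a j (x j ^ q)) {z : Co x V} (hz : z ∈ Z x h.mono a s) :
    u x h z ∈ Z x h.mono' a' (s + 1) := by
  refine ⟨u_mem h (mem_Pre_succ.2 hz.1), ?_⟩
  rw [SetLike.mem_coe, LinearMap.mem_ker, D_u h ha', hz.2, map_zero, neg_zero]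

theorem u_B (ha' : a' = Function.update a j (x j ^ q)) {z : Co x V} (hz : z ∈ B x h.mono a s) :
    u x h z ∈ B x h.mono' a' (s + 1) := by
  obtain ⟨b, hb, rfl⟩ := hz
  refine ⟨- u x h b, Submodule.neg_mem _ (mem_Pre_succ.2 (u_mem h hb)), ?_⟩
  rw [map_neg, D_u h ha', neg_neg]

theorem v_Z (ha : a j = 1) (ha' : a' = Function.update a j (x j ^ q)) {z : Co x V'}
    (hz : z ∈ Z x h.mono' a' s) : v x h (x j ^ q) z ∈ Z x h.mono a s := by
  refine ⟨v_mem h _ hz.1, ?_⟩
  rw [SetLike.mem_coe, LinearMap.mem_ker, D_v h ha ha', hz.2, map_zero]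

theorem v_B (ha : a j = 1) (ha' : a' = Function.update a j (x j ^ q)) {z : Co x V'}
    (hz : z ∈ B x h.mono' a' s) : v x h (x j ^ q) z ∈ B x h.mono a s := by
  obtain ⟨b, hb, rfl⟩ := hz
  exact ⟨v x h (x j ^ q) b, v_mem_Pre h _ hb, D_v h ha ha' b⟩

/-- Exactness in the middle. -/
theorem exact1 (ha : a j = 1) (ha' : a' = Function.update a j (x j ^ q)) {c : Co x V'}
    (hc : c ∈ Z x h.mono' a' (s + 1)) (hv : v x h (x j ^ q) c ∈ B x h.mono a (s + 1)) :
    ∃ z ∈ Z x h.mono a s, c - u x h z ∈ B x h.mono' a' (s + 1) := by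
  obtain ⟨b, hb, hbv⟩ := hv
  have hb' := mem_Pre_succ.1 hb
  set c' := c - D x h.mono' a' (i0 x h b) with hc'
  have hc'Z : c' ∈ Z x h.mono' a' (s + 1) :=
    Submodule.sub_mem _ hc (B_le_Z _ _ _ ⟨_, mem_Pre_succ.2 (i0_mem h hb'), rfl⟩)
  -- the components of `c'` without `j` vanish
  have h1 : ∀ S, j ∉ S → c' S = 0 := by
    intro S hj
    rw [hc', D_i0 h ha', Pi.sub_apply, Pi.add_apply, Pi.smul_apply, u_neg h _ hj, smul_zero,
      add_zero, i0_pos h _ hj, hbv, v_neg h _ _ hj, res_res, res_self, sub_self]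
  have h2 : c' = u x h (t x h c') := by
    funext S
    by_cases hj : j ∈ S
    · rw [u_t h _ hj]
    · rw [h1 S hj, u_neg h _ hj]
  set z1 := t x h c' with hz1
  have hz1m : z1 ∈ Deg x V s := mem_Pre_succ.1 (t_mem h hc'Z.1)
  have hP : P0 x j V z1 = z1 := P0_t h c'
  set P1b := b - P0 x j V b with hP1b
  refine ⟨z1 - x j ^ q • P1b, ⟨?_, ?_⟩, i0 x h b, mem_Pre_succ.2 (i0_mem h hb'), ?_⟩
  · exact Submodule.sub_mem _ hz1m (Submodule.smul_mem _ _ (Submodule.sub_mem _ hb' (P0_mem hb')))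
  · -- `D z1 = y • D P1b`
    rw [SetLike.mem_coe, LinearMap.mem_ker, map_sub, map_smul, sub_eq_zero]
    have h3 : v x h (x j ^ q) c' = D x h.mono a P1b := by
      rw [hc', map_sub, ← D_v h ha ha', v_i0, ← hbv, ← map_sub]
    have h4 := v_u h (q := q) ha z1
    rw [hP, ← h2, h3] at h4
    -- the components of `D z1` without `j` vanish
    have h5 : P0 x j V (D x h.mono a z1) = 0 := by
      rw [← t_u h]
      have h6 := D_u h ha' z1
      rw [← h2, hc'Z.2] at h6
      rw [neg_eq_zero.1 h6.symm, map_zero]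
    rw [h5, sub_zero] at h4
    exact h4.symm
  · have h7 : u x h P1b = 0 := by rw [hP1b, map_sub, u_P0, sub_self]
    rw [map_sub, map_smul, h7, smul_zero, sub_zero, ← h2, hc']
    abel

/-- In degree `0` the map `v` is injective. -/
theorem exact0 {c : Co x V'} (hc : c ∈ Z x h.mono' a' 0)
    (hv : v x h (x j ^ q) c ∈ B x h.mono a 0) : c = 0 := by
  obtain ⟨b, hb, hbv⟩ := hv
  rw [SetLike.mem_coe, mem_Pre_zero] at hb
  rw [hb, map_zero] at hbv
  funext S
  by_cases hS : S.card = 0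
  · rw [card_eq_zero] at hS
    subst hS
    have hj : j ∉ (∅ : Finset (Fin d)) := notMem_empty j
    have h1 : v x h (x j ^ q) c ∅ = 0 := by rw [← hbv]; rfl
    rw [v_neg h _ _ hj] at h1
    have h2 := congrArg (res x (h.sub hj)) h1
    rw [res_res, res_self, map_zero] at h2
    exact h2
  · exact hc.1 S hS

/-- The kernel of `u`. -/
theorem exact2 (ha : a j = 1) (ha' : a' = Function.update a j (x j ^ q)) {z : Co x V}
    (hz : z ∈ Z x h.mono a s) (hu : u x h z ∈ B x h.mono' a' (s + 1)) :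
    ∃ g ∈ Z x h.mono a s, z - x j ^ q • g ∈ B x h.mono a s := by
  obtain ⟨w, hw, hwu⟩ := hu
  have hw' := mem_Pre_succ.1 hw
  set b := p0 x h w with hb
  set w1 := t x h w with hw1
  have hdec : w = i0 x h b + u x h w1 := decomp h w
  have h1 : i0 x h (D x h.mono a b) + x j ^ q • u x h b - u x h (D x h.mono a w1) = u x h z := by
    rw [← hwu, hdec, map_add, D_i0 h ha', D_u h ha']
    abel
  have h2 : P0 x j V (D x h.mono a b) = 0 := by
    funext S
    by_cases hj : j ∈ S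
    · rw [P0_neg _ hj]; rfl
    · have h3 := congrFun h1 S
      rw [Pi.sub_apply, Pi.add_apply, Pi.smul_apply, u_neg h _ hj, u_neg h _ hj, u_neg h _ hj,
        smul_zero, add_zero, sub_zero, i0_pos h _ hj] at h3
      have h4 := congrArg (res x (h.le S)) h3
      rw [res_res, res_self, map_zero] at h4
      rw [P0_pos _ hj, h4]; rfl
  set z' := z + D x h.mono a w1 with hz'
  have hi : i0 x h (D x h.mono a b) = i0 x h (P0 x j V (D x h.mono a b)) := by
    funext S
    by_cases hj : j ∈ S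
    · rw [i0_neg h _ hj, i0_neg h _ hj]
    · rw [i0_pos h _ hj, i0_pos h _ hj, P0_pos _ hj]
  have h3 : u x h z' = x j ^ q • u x h b := by
    rw [hi, h2, map_zero, zero_add] at h1
    rw [hz', map_add, ← h1]
    abel
  have hPb : P0 x j V b = b := P0_p0 h w
  have h4 : P0 x j V z' = x j ^ q • b := by
    have := congrArg (t x h) h3
    rwa [map_smul, t_u, t_u, hPb] at this
  have hw1m : w1 ∈ Pre x V s := t_mem h hw'
  have hz'Z : z' ∈ Z x h.mono a s :=
    Submodule.add_mem _ hz (B_le_Z _ _ _ ⟨w1, hw1m, rfl⟩)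
  -- division by `y`
  set g : Co x V := fun S => if j ∉ S then b S else
    Ring.inverse (algebraMap R (Loc x (V S)) (x j ^ q)) * z' S with hg
  have hgpos : ∀ S, j ∉ S → g S = b S := fun S hj => if_pos hj
  have hgneg : ∀ S, j ∈ S → g S = Ring.inverse (algebraMap R (Loc x (V S)) (x j ^ q)) * z' S :=
    fun S hj => if_neg (not_not.2 hj)
  have hyg : x j ^ q • g = z' := by
    funext S
    rw [Pi.smul_apply]
    by_cases hj : j ∈ S
    · rw [hgneg S hj, Algebra.smul_def (x j ^ q), ← mul_assoc,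
        Ring.mul_inverse_cancel _ (isUnit_y h (q := q) hj), one_mul]
    · rw [hgpos S hj, ← Pi.smul_apply, ← h4, P0_pos _ hj]
  have hP0g : P0 x j V g = b := by
    funext S
    by_cases hj : j ∈ S
    · rw [P0_neg _ hj, hb, p0_neg h _ hj]
    · rw [P0_pos _ hj, hgpos S hj]
  refine ⟨g, ⟨?_, ?_⟩, ?_⟩
  · intro S hS
    by_cases hj : j ∈ S
    · rw [hgneg S hj, hz'Z.1 S hS, mul_zero]
    · rw [hgpos S hj]
      exact p0_mem h hw' S hS
  · rw [SetLike.mem_coe, LinearMap.mem_ker]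
    funext S
    by_cases hj : j ∈ S
    · have h5 : x j ^ q • D x h.mono a g = 0 := by rw [← map_smul, hyg, hz'Z.2]
      have h6 := congrFun h5 S
      rw [Pi.smul_apply, Pi.zero_apply, Algebra.smul_def (x j ^ q)] at h6
      exact ((isUnit_y h (q := q) hj).mul_right_eq_zero).1 h6
    · have h5 := P0_D (a := a) (j := j) h.mono g
      rw [hP0g, h2] at h5
      have h6 := congrFun h5 S
      rw [P0_pos _ hj] at h6
      exact h6.symm
  · refine ⟨- w1, Submodule.neg_mem _ hw1m, ?_⟩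
    rw [hyg, hz', map_neg]
    abel

end Q43.FC
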