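import Pool.Agent.Q43.FC.Frob

/-!
# The induction
-/

set_option autoImplicit false
set_option linter.unusedVariables false
set_option linter.unusedSectionVars false

namespace Q43.FC

open Finset

variable {R : Type*} [CommRing R] {d : ℕ} (p : ℕ) [hp : Fact p.Prime] [hc : CharP R p]
variable {x : Fin d → R} {V V' : Finset (Fin d) → Finset (Fin d)} {j : Fin d} {a a' : Fin d → R}

/-- All the cohomology modules in degrees `< d` of all the Frobenius twists are killed by the
`n`-th powers of the `x k`. -/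
def Ann (x : Fin d → R) {V : Finset (Fin d) → Finset (Fin d)} (hV : Monotone V) (a : Fin d → R)
    (n : ℕ) : Prop :=
  ∀ e k s, s < d → ∀ z ∈ Z x hV (ae p a e) s, x k ^ n • z ∈ B x hV (ae p a e) s

theorem ae_update (ha' : a' = Function.update a j (x j)) (e : ℕ) :
    ae p a' e = Function.update (ae p a e) j (x j ^ p ^ e) := by
  funext k
  simp only [ae, ha']
  by_cases hk : k = j
  · subst hk; rw [Function.update_self, Function.update_self]
  · rw [Function.update_of_ne hk, Function.update_of_ne hk]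
    rfl

theorem ae_one (ha : a j = 1) (e : ℕ) : ae p a e j = 1 := by simp only [ae, ha, one_pow]

theorem Ann_step (h : Step j V V') (ha : a j = 1) (ha' : a' = Function.update a j (x j)) {n : ℕ}
    (hA : Ann p x h.mono a n) : Ann p x h.mono' a' (2 * n) := by
  intro e k s hs z hz
  have hb := ae_update p ha' e
  have hb1 := ae_one p ha e
  have h1 : v x h (x j ^ p ^ e) (x k ^ n • z) ∈ B x h.mono (ae p a e) s := by
    rw [map_smul]
    exact hA e k s hs _ (v_Z h hb1 hb hz)
  cases s with
  | zero =>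
    have h2 := exact0 h (Submodule.smul_mem _ (x k ^ n) hz) h1
    rw [two_mul, pow_add, mul_smul, h2, smul_zero]
    exact Submodule.zero_mem _
  | succ s =>
    obtain ⟨w, hw, hw2⟩ := exact1 h hb1 hb (Submodule.smul_mem _ (x k ^ n) hz) h1
    have h3 := u_B h hb (hA e k s (by omega) w hw)
    rw [map_smul] at h3
    have h4 := Submodule.add_mem _ (Submodule.smul_mem _ (x k ^ n) hw2) h3
    rw [smul_sub, sub_add_cancel, smul_smul, ← pow_add, ← two_mul] at h4
    exact h4

theorem inj_level (h : Step j V V') (ha : a j = 1) (ha' : a' = Function.update a j (x j)) {n : ℕ}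
    (hA : Ann p x h.mono a n) {e s : ℕ} (he : n ≤ p ^ e) (hs : s < d) {z : Co x V}
    (hz : z ∈ Z x h.mono (ae p a e) s) (hu : u x h z ∈ B x h.mono' (ae p a' e) (s + 1)) :
    z ∈ B x h.mono (ae p a e) s := by
  have hb := ae_update p ha' e
  have hb1 := ae_one p ha e
  obtain ⟨g, hg, hg2⟩ := exact2 h hb1 hb hz hu
  obtain ⟨m, hm⟩ := Nat.exists_eq_add_of_le' he
  have h1 := hA e j s hs g hg
  have h2 := Submodule.smul_mem _ (x j ^ m) h1
  rw [smul_smul, ← pow_add, ← hm] at h2
  have h3 := Submodule.add_mem _ hg2 h2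
  rwa [sub_add_cancel] at h3

theorem Fr_v1 (h : Step j V V') (e : ℕ) (c : Co x V') :
    Fr p x V e (v x h (x j ^ 1) c) = v x h (x j ^ p ^ e) (Fr p x V' e c) := by
  rw [Fr_v, one_mul]

theorem v_NZ (h : Step j V V') (ha : a j = 1) (ha' : a' = Function.update a j (x j)) {s : ℕ}
    {z : Co x V'} (hz : z ∈ NZ p x h.mono' a' s) : v x h (x j ^ 1) z ∈ NZ p x h.mono a s := by
  obtain ⟨hz1, e, he⟩ := hz
  have ha1 : a' = Function.update a j (x j ^ 1) := by rw [ha', pow_one]
  refine ⟨v_Z h ha ha1 hz1, e, ?_⟩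
  rw [Fr_v1]
  exact v_B h (ae_one p ha e) (ae_update p ha' e) he

theorem u_NZ (h : Step j V V') (ha : a j = 1) (ha' : a' = Function.update a j (x j)) {s : ℕ}
    {z : Co x V} (hz : z ∈ NZ p x h.mono a s) : u x h z ∈ NZ p x h.mono' a' (s + 1) := by
  obtain ⟨hz1, e, he⟩ := hz
  have ha1 : a' = Function.update a j (x j ^ 1) := by rw [ha', pow_one]
  refine ⟨u_Z h ha1 hz1, e, ?_⟩
  rw [Fr_u]
  exact u_B h (ae_update p ha' e) he

theorem len_step (h : Step j V V') (ha : a j = 1) (ha' : a' = Function.update a j (x j)) {n : ℕ}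
    (hA : Ann p x h.mono a n) {s : ℕ} (hs : s < d) :
    len p x h.mono' a' (s + 1) ≤ len p x h.mono a s + len p x h.mono a (s + 1) := by
  have ha1 : a' = Function.update a j (x j ^ 1) := by rw [ha', pow_one]
  refine length_step (v x h (x j ^ 1)) (u x h) (fun z hz => v_NZ p h ha ha' hz)
    (fun z hz => v_B h ha ha1 hz) (fun z hz => u_NZ p h ha ha' hz) (fun z hz => u_B h ha1 hz) ?_
  intro z hz hv
  obtain ⟨w, hw, hw2⟩ := exact1 h ha ha1 hz.1 hv
  refine ⟨w, ⟨hw, ?_⟩, hw2⟩
  obtain ⟨-, e, he⟩ := hz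
  have hne : n ≤ p ^ (e + n) := by
    calc n ≤ p ^ n := (Nat.lt_pow_self hp.out.one_lt).le
      _ ≤ p ^ (e + n) := Nat.pow_le_pow_right hp.out.pos (Nat.le_add_left _ _)
  refine ⟨e + n, inj_level p h ha ha' hA hne hs (Fr_Z p hw) ?_⟩
  have h1 := Fr_B_le p (Nat.le_add_right e n) he
  have h2 := Fr_B (p := p) (e := e + n) hw2
  rw [map_sub, Fr_u] at h2
  have h3 := Submodule.sub_mem _ h1 h2
  rwa [sub_sub_cancel] at h3

theorem len_step0 (h : Step j V V') (ha : a j = 1) (ha' : a' = Function.update a j (x j)) :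
    len p x h.mono' a' 0 ≤ len p x h.mono a 0 := by
  have ha1 : a' = Function.update a j (x j ^ 1) := by rw [ha', pow_one]
  refine length_inj (v x h (x j ^ 1)) (fun z hz => v_NZ p h ha ha' hz)
    (fun z hz => v_B h ha ha1 hz) ?_
  intro z hz hv
  rw [exact0 h hz.1 hv]
  exact Submodule.zero_mem _

/-! ### The sequence of complexes -/

/-- The Cech indices of the `j`-th complex. -/
def Vj (d j : ℕ) (S : Finset (Fin d)) : Finset (Fin d) := S.filter fun k => j ≤ k.val

/-- The coefficients of the `j`-th complex. -/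
def aj (x : Fin d → R) (j : ℕ) : Fin d → R := fun k => if k.val < j then x k else 1

theorem Vj_mono (d j : ℕ) : Monotone (Vj d j) := fun _ _ h => filter_subset_filter _ h

theorem Vj_step {j : ℕ} (hj : j < d) : Step (⟨j, hj⟩ : Fin d) (Vj d j) (Vj d (j + 1)) where
  mono := Vj_mono d j
  mono' := Vj_mono d (j + 1)
  eq := by
    intro S hS
    apply filter_congr
    intro k hk
    have : k.val ≠ j := by
      intro he
      apply hS
      have : k = ⟨j, hj⟩ := Fin.ext he
      rwa [← this]
    omega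
  mem := by
    intro S hS
    exact mem_filter.2 ⟨hS, le_rfl⟩
  er := by
    intro S hS
    ext k
    simp only [Vj, mem_filter, mem_erase]
    constructor
    · rintro ⟨⟨h1, h2⟩, h3⟩
      refine ⟨h2, ?_⟩
      have : k.val ≠ j := fun he => h1 (Fin.ext he)
      omega
    · rintro ⟨h1, h2⟩
      refine ⟨⟨?_, h1⟩, by omega⟩
      rintro rfl
      simp at h2

theorem aj_step (x : Fin d → R) {j : ℕ} (hj : j < d) :
    aj x (j + 1) = Function.update (aj x j) ⟨j, hj⟩ (x ⟨j, hj⟩) := by
  funext k
  by_cases hk : k = ⟨j, hj⟩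
  · subst hk
    rw [Function.update_self, aj, if_pos (Nat.lt_succ_self j)]
  · rw [Function.update_of_ne hk, aj, aj]
    have : k.val ≠ j := fun he => hk (Fin.ext he)
    congr 1
    rw [eq_iff_iff]
    omega

theorem aj_one (x : Fin d → R) {j : ℕ} (hj : j < d) : aj x j ⟨j, hj⟩ = 1 :=
  if_neg (lt_irrefl j)

theorem Ann_all {n : ℕ} (hA : Ann p x (Vj_mono d 0) (aj x 0) n) (j : ℕ) (hj : j ≤ d) :
    ∃ m, Ann p x (Vj_mono d j) (aj x j) m := by
  induction j with
  | zero => exact ⟨n, hA⟩
  | succ j ih =>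
    obtain ⟨m, hm⟩ := ih (by omega)
    exact ⟨2 * m, Ann_step p (Vj_step (by omega)) (aj_one x (by omega)) (aj_step x (by omega)) hm⟩

theorem len_all {n : ℕ} (hA : Ann p x (Vj_mono d 0) (aj x 0) n) (j : ℕ) (hj : j ≤ d) (s : ℕ)
    (hs : s ≤ d) : len p x (Vj_mono d j) (aj x j) s ≤
      ∑ i ∈ range (s + 1), ((j.choose (s - i) : ℕ) : ℕ∞) * len p x (Vj_mono d 0) (aj x 0) i := by
  induction j generalizing s with
  | zero =>
    have h1 : len p x (Vj_mono d 0) (aj x 0) s =
        ((Nat.choose 0 (s - s) : ℕ) : ℕ∞) * len p x (Vj_mono d 0) (aj x 0) s := by simp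
    conv_lhs => rw [h1]
    exact single_le_sum (f := fun i => ((Nat.choose 0 (s - i) : ℕ) : ℕ∞) *
      len p x (Vj_mono d 0) (aj x 0) i) (fun _ _ => zero_le) (mem_range.2 (Nat.lt_succ_self s))
  | succ j ih =>
    obtain ⟨m, hm⟩ := Ann_all p hA j (by omega)
    have hst := Vj_step (d := d) (j := j) (by omega)
    cases s with
    | zero =>
      refine (len_step0 p hst (aj_one x (by omega)) (aj_step x (by omega))).trans ?_
      refine (ih (by omega) 0 (by omega)).trans (le_of_eq ?_)
      simp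
    | succ s =>
      refine (len_step p hst (aj_one x (by omega)) (aj_step x (by omega)) hm (by omega)).trans ?_
      refine (add_le_add (ih (by omega) s (by omega)) (ih (by omega) (s + 1) hs)).trans ?_
      rw [sum_range_succ _ (s + 1), sum_range_succ _ (s + 1), ← add_assoc, ← sum_add_distrib]
      apply add_le_add
      · apply le_of_eq
        apply sum_congr rfl
        intro i hi
        rw [mem_range] at hi
        have h1 : s + 1 - i = (s - i) + 1 := by omega
        rw [h1, Nat.choose_succ_succ, Nat.cast_add, add_mul]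
      · simp

end Q43.FC
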