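import Pool.Agent.Q43.FC.Defs

/-!
# Replacing a Cech index by a Koszul index
-/

set_option autoImplicit false
set_option linter.unusedVariables false

namespace Q43.FC

open Finset

variable {R : Type*} [CommRing R] {d : ℕ}

/-- The index `j` is a Cech index for `V`, and a Koszul index for `V'`. -/
structure Step (j : Fin d) (V V' : Finset (Fin d) → Finset (Fin d)) : Prop where
  mono : Monotone V
  mono' : Monotone V'
  eq : ∀ S, j ∉ S → V S = V' S
  mem : ∀ S, j ∈ S → j ∈ V S
  er : ∀ S, j ∈ S → V (S.erase j) = V' S

namespace Step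

variable {j : Fin d} {V V' : Finset (Fin d) → Finset (Fin d)} (h : Step j V V')
include h

theorem le (S : Finset (Fin d)) : V' S ⊆ V S := by
  by_cases hj : j ∈ S
  · rw [← h.er S hj]
    exact h.mono (erase_subset _ _)
  · rw [h.eq S hj]

theorem er_sub {S : Finset (Fin d)} (hj : j ∈ S) : V (S.erase j) ⊆ V' S := (h.er S hj).le

theorem ins_sub {S : Finset (Fin d)} (hj : j ∉ S) : V' (insert j S) ⊆ V S := by
  rw [← h.er _ (mem_insert_self j S), erase_insert hj]

theorem sub {S : Finset (Fin d)} (hj : j ∉ S) : V S ⊆ V' S := (h.eq S hj).le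

end Step

variable (x : Fin d → R) {j : Fin d} {V V' : Finset (Fin d) → Finset (Fin d)} (h : Step j V V')

/-- The inclusion of the components without `j` into the components with `j`. -/
noncomputable def u : Co x V →ₗ[R] Co x V' where
  toFun c := fun S => if hj : j ∈ S then sgn R j S • res x (h.er_sub hj) (c (S.erase j)) else 0
  map_add' c c' := by
    funext S
    simp only [Pi.add_apply]
    split_ifs <;> simp
  map_smul' r c := by
    funext S
    simp only [Pi.smul_apply, RingHom.id_apply]
    split_ifs
    · rw [map_smul, smul_comm]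
    · simp

/-- The converse. -/
noncomputable def t : Co x V' →ₗ[R] Co x V where
  toFun c := fun S => if hj : j ∉ S then
    sgn R j (insert j S) • res x (h.ins_sub hj) (c (insert j S)) else 0
  map_add' c c' := by
    funext S
    simp only [Pi.add_apply]
    split_ifs <;> simp
  map_smul' r c := by
    funext S
    simp only [Pi.smul_apply, RingHom.id_apply]
    split_ifs
    · simp
    · rw [map_smul, smul_comm]

/-- The components without `j`. -/
noncomputable def i0 : Co x V →ₗ[R] Co x V' where
  toFun c := fun S => if hj : j ∉ S then res x (h.sub hj) (c S) else 0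
  map_add' c c' := by
    funext S
    simp only [Pi.add_apply]
    split_ifs <;> simp
  map_smul' r c := by
    funext S
    simp only [Pi.smul_apply, RingHom.id_apply]
    split_ifs
    · simp
    · rw [map_smul]

/-- The components without `j`. -/
noncomputable def p0 : Co x V' →ₗ[R] Co x V where
  toFun c := fun S => if hj : j ∉ S then res x (h.le S) (c S) else 0
  map_add' c c' := by
    funext S
    simp only [Pi.add_apply]
    split_ifs <;> simp
  map_smul' r c := by
    funext S
    simp only [Pi.smul_apply, RingHom.id_apply]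
    split_ifs
    · simp
    · rw [map_smul]

/-- The comparison map: division by `y` on the components with `j`. -/
noncomputable def v (y : R) : Co x V' →ₗ[R] Co x V where
  toFun c := fun S => if j ∈ S then
    Ring.inverse (algebraMap R (Loc x (V S)) y) * res x (h.le S) (c S) else res x (h.le S) (c S)
  map_add' c c' := by
    funext S
    simp only [Pi.add_apply]
    split_ifs <;> simp [mul_add]
  map_smul' r c := by
    funext S
    simp only [Pi.smul_apply, RingHom.id_apply]
    split_ifs
    · rw [map_smul, mul_smul_comm]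
    · rw [map_smul]

/-- The projection to the components without `j`. -/
noncomputable def P0 (x : Fin d → R) (j : Fin d) (V : Finset (Fin d) → Finset (Fin d)) :
    Co x V →ₗ[R] Co x V where
  toFun c := fun S => if j ∉ S then c S else 0
  map_add' c c' := by
    funext S
    simp only [Pi.add_apply]
    split_ifs <;> simp
  map_smul' r c := by
    funext S
    simp only [Pi.smul_apply, RingHom.id_apply]
    split_ifs <;> simp

variable {x}

theorem u_pos (c : Co x V) {S : Finset (Fin d)} (hj : j ∈ S) :
    u x h c S = sgn R j S • res x (h.er_sub hj) (c (S.erase j)) := dif_pos hj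

theorem u_neg (c : Co x V) {S : Finset (Fin d)} (hj : j ∉ S) : u x h c S = 0 := dif_neg hj

theorem t_pos (c : Co x V') {S : Finset (Fin d)} (hj : j ∉ S) :
    t x h c S = sgn R j (insert j S) • res x (h.ins_sub hj) (c (insert j S)) := dif_pos hj

theorem t_neg (c : Co x V') {S : Finset (Fin d)} (hj : j ∈ S) : t x h c S = 0 :=
  dif_neg (not_not.2 hj)

theorem i0_pos (c : Co x V) {S : Finset (Fin d)} (hj : j ∉ S) :
    i0 x h c S = res x (h.sub hj) (c S) := dif_pos hj

theorem i0_neg (c : Co x V) {S : Finset (Fin d)} (hj : j ∈ S) : i0 x h c S = 0 :=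
  dif_neg (not_not.2 hj)

theorem p0_pos (c : Co x V') {S : Finset (Fin d)} (hj : j ∉ S) :
    p0 x h c S = res x (h.le S) (c S) := dif_pos hj

theorem p0_neg (c : Co x V') {S : Finset (Fin d)} (hj : j ∈ S) : p0 x h c S = 0 :=
  dif_neg (not_not.2 hj)

theorem v_pos (y : R) (c : Co x V') {S : Finset (Fin d)} (hj : j ∈ S) :
    v x h y c S = Ring.inverse (algebraMap R (Loc x (V S)) y) * res x (h.le S) (c S) := if_pos hj

theorem v_neg (y : R) (c : Co x V') {S : Finset (Fin d)} (hj : j ∉ S) :
    v x h y c S = res x (h.le S) (c S) := if_neg hj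

theorem P0_pos (c : Co x V) {S : Finset (Fin d)} (hj : j ∉ S) : P0 x j V c S = c S := if_pos hj

theorem P0_neg (c : Co x V) {S : Finset (Fin d)} (hj : j ∈ S) : P0 x j V c S = 0 :=
  if_neg (not_not.2 hj)

/-- `y` is invertible on the components with `j`. -/
theorem isUnit_y (h : Step j V V') {q : ℕ} {S : Finset (Fin d)} (hj : j ∈ S) :
    IsUnit (algebraMap R (Loc x (V S)) (x j ^ q)) := by
  rw [map_pow]
  apply IsUnit.pow
  have h1 := isUnit_prod x (S := {j}) (T := V S) (singleton_subset_iff.2 (h.mem S hj))
  rwa [prod_singleton] at h1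

section Identities

variable {a a' : Fin d → R} {q : ℕ} (ha : a j = 1) (ha' : a' = Function.update a j (x j ^ q))

theorem sgn_smul_smul {M : Type*} [AddCommGroup M] [Module R M] (j : Fin d) (S : Finset (Fin d))
    (z : M) : sgn R j S • sgn R j S • z = z := by
  rw [smul_smul, sgn_sq, one_smul]

/-- `u` anticommutes with the differentials. -/
theorem D_u (ha' : a' = Function.update a j (x j ^ q)) (c : Co x V) :
    D x h.mono' a' (u x h c) = - u x h (D x h.mono a c) := by
  subst ha'
  funext S
  rw [Pi.neg_apply, D_apply]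
  by_cases hj : j ∈ S
  · rw [u_pos h _ hj, D_apply, ← add_sum_erase S _ hj, u_neg h c (notMem_erase j S), map_zero,
      smul_zero, zero_add, map_sum, smul_sum, ← sum_neg_distrib]
    apply sum_congr rfl
    intro k hk
    have hkj : k ≠ j := ne_of_mem_erase hk
    have hkS : k ∈ S := mem_of_mem_erase hk
    have hjk : j ∈ S.erase k := mem_erase.2 ⟨hkj.symm, hj⟩
    rw [u_pos h c hjk, map_smul, map_smul, res_res, res_res, smul_smul, smul_smul,
      Function.update_of_ne hkj,
      res_congr c (S := (S.erase k).erase j) (T := (S.erase j).erase k) _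
        ((h.mono (erase_subset k (S.erase j))).trans (h.er_sub hj)) erase_right_comm, ← neg_smul]
    congr 1
    linear_combination (a k) * sgn_anti (R := R) hkS hj hkj
  · rw [u_neg h _ hj, neg_zero]
    apply sum_eq_zero
    intro k _
    rw [u_neg h c (fun hm => hj (mem_of_mem_erase hm)), map_zero, smul_zero]

/-- `v` is a chain map. -/
theorem D_v (ha : a j = 1) (ha' : a' = Function.update a j (x j ^ q)) (c : Co x V') :
    D x h.mono a (v x h (x j ^ q) c) = v x h (x j ^ q) (D x h.mono' a' c) := by
  subst ha'
  funext S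
  rw [D_apply]
  by_cases hj : j ∈ S
  · rw [v_pos h _ _ hj, D_apply, map_sum, mul_sum]
    apply sum_congr rfl
    intro k hk
    have hy := isUnit_y (x := x) h (q := q) hj
    by_cases hkj : k = j
    · subst hkj
      rw [v_neg h _ _ (notMem_erase k S), map_smul, res_res, res_res, ha, mul_one,
        Function.update_self, mul_smul, mul_smul_comm, Algebra.smul_def (x k ^ q), ← mul_assoc,
        Ring.inverse_mul_cancel _ hy, one_mul]
    · have hjk : j ∈ S.erase k := mem_erase.2 ⟨Ne.symm hkj, hj⟩
      have hy' := isUnit_y (x := x) h (q := q) hjk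
      rw [v_pos h _ _ hjk, map_mul, map_smul, res_res, res_res, Function.update_of_ne hkj,
        mul_smul_comm]
      congr 2
      have h1 : res x (h.mono (erase_subset k S)) (algebraMap R _ (x j ^ q)) =
          algebraMap R _ (x j ^ q) := AlgHom.commutes _ _
      have h2 : res x (h.mono (erase_subset k S)) (Ring.inverse (algebraMap R _ (x j ^ q))) *
          algebraMap R _ (x j ^ q) = 1 := by
        rw [← h1, ← map_mul, Ring.inverse_mul_cancel _ hy', map_one]
      calc res x (h.mono (erase_subset k S)) (Ring.inverse (algebraMap R _ (x j ^ q))) =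
            res x (h.mono (erase_subset k S)) (Ring.inverse (algebraMap R _ (x j ^ q))) *
              (algebraMap R _ (x j ^ q) * Ring.inverse (algebraMap R _ (x j ^ q))) := by
              rw [Ring.mul_inverse_cancel _ hy, mul_one]
        _ = _ := by rw [← mul_assoc, h2, one_mul]
  · rw [v_neg h _ _ hj, D_apply, map_sum]
    apply sum_congr rfl
    intro k hk
    have hkj : k ≠ j := fun he => hj (he ▸ hk)
    rw [v_neg h _ _ (fun hm => hj (mem_of_mem_erase hm)), map_smul, res_res, res_res,
      Function.update_of_ne hkj]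

theorem D_i0 (ha' : a' = Function.update a j (x j ^ q)) (c : Co x V) :
    D x h.mono' a' (i0 x h c) = i0 x h (D x h.mono a c) + x j ^ q • u x h c := by
  subst ha'
  funext S
  rw [Pi.add_apply, Pi.smul_apply, D_apply]
  by_cases hj : j ∈ S
  · rw [i0_neg h _ hj, u_pos h _ hj, zero_add, ← add_sum_erase S _ hj,
      i0_pos h c (notMem_erase j S), res_res, Function.update_self]
    have h1 : ∑ k ∈ S.erase j, (sgn R k S * Function.update a j (x j ^ q) k) •
        res x (h.mono' (erase_subset k S)) (i0 x h c (S.erase k)) = 0 := by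
      apply sum_eq_zero
      intro k hk
      have hjk : j ∈ S.erase k := mem_erase.2 ⟨(ne_of_mem_erase hk).symm, hj⟩
      rw [i0_neg h c hjk, map_zero, smul_zero]
    rw [h1, add_zero, smul_smul, mul_comm]
  · rw [i0_pos h _ hj, u_neg h _ hj, smul_zero, add_zero, D_apply, map_sum]
    apply sum_congr rfl
    intro k hk
    have hkj : k ≠ j := fun he => hj (he ▸ hk)
    rw [i0_pos h c (fun hm => hj (mem_of_mem_erase hm)), map_smul, res_res, res_res,
      Function.update_of_ne hkj]

theorem u_t (c : Co x V') {S : Finset (Fin d)} (hj : j ∈ S) : u x h (t x h c) S = c S := by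
  rw [u_pos h _ hj, t_pos h _ (notMem_erase j S), map_smul, smul_smul, res_res]
  have h1 : insert j (S.erase j) = S := insert_erase hj
  rw [res_congr c (S := insert j (S.erase j)) (T := S) _ subset_rfl h1, res_self]
  rw [h1, sgn_sq, one_smul]

theorem t_u (c : Co x V) : t x h (u x h c) = P0 x j V c := by
  funext S
  by_cases hj : j ∈ S
  · rw [t_neg h _ hj, P0_neg _ hj]
  · rw [t_pos h _ hj, P0_pos _ hj, u_pos h _ (mem_insert_self j S), map_smul, smul_smul, res_res,
      sgn_sq, one_smul]
    have h1 : (insert j S).erase j = S := erase_insert hj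
    rw [res_congr c (S := (insert j S).erase j) (T := S) _ subset_rfl h1, res_self]

theorem u_P0 (c : Co x V) : u x h (P0 x j V c) = u x h c := by
  funext S
  by_cases hj : j ∈ S
  · rw [u_pos h _ hj, u_pos h _ hj, P0_pos _ (notMem_erase j S)]
  · rw [u_neg h _ hj, u_neg h _ hj]

theorem P0_t (c : Co x V') : P0 x j V (t x h c) = t x h c := by
  funext S
  by_cases hj : j ∈ S
  · rw [P0_neg _ hj, t_neg h _ hj]
  · rw [P0_pos _ hj]

theorem P0_P0 (c : Co x V) : P0 x j V (P0 x j V c) = P0 x j V c := by
  funext S
  by_cases hj : j ∈ S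
  · rw [P0_neg _ hj, P0_neg _ hj]
  · rw [P0_pos _ hj]

theorem v_i0 (y : R) (c : Co x V) : v x h y (i0 x h c) = P0 x j V c := by
  funext S
  by_cases hj : j ∈ S
  · rw [v_pos h _ _ hj, i0_neg h _ hj, map_zero, mul_zero, P0_neg _ hj]
  · rw [v_neg h _ _ hj, i0_pos h _ hj, P0_pos _ hj, res_res, res_self]

/-- The components without `j` of `D c` depend only on the components without `j` of `c`. -/
theorem P0_D (hV : Monotone V) (c : Co x V) :
    P0 x j V (D x hV a (P0 x j V c)) = P0 x j V (D x hV a c) := by
  funext S
  by_cases hj : j ∈ S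
  · rw [P0_neg _ hj, P0_neg _ hj]
  · rw [P0_pos _ hj, P0_pos _ hj, D_apply, D_apply]
    apply sum_congr rfl
    intro k _
    rw [P0_pos _ (fun hm => hj (mem_of_mem_erase hm))]

/-- The key identity: `y • v (u c) = (1 - P0) D (P0 c)`. -/
theorem v_u (ha : a j = 1) (c : Co x V) : x j ^ q • v x h (x j ^ q) (u x h c) =
    D x h.mono a (P0 x j V c) - P0 x j V (D x h.mono a (P0 x j V c)) := by
  funext S
  rw [Pi.smul_apply, Pi.sub_apply]
  by_cases hj : j ∈ S
  · have hy := isUnit_y (x := x) h (q := q) hj
    rw [v_pos h _ _ hj, u_pos h _ hj, P0_neg _ hj, sub_zero, Algebra.smul_def (x j ^ q),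
      ← mul_assoc, Ring.mul_inverse_cancel _ hy, one_mul, map_smul, res_res, D_apply,
      ← add_sum_erase S _ hj, P0_pos _ (notMem_erase j S), ha, mul_one]
    have h1 : ∑ k ∈ S.erase j, (sgn R k S * a k) •
        res x (h.mono (erase_subset k S)) (P0 x j V c (S.erase k)) = 0 := by
      apply sum_eq_zero
      intro k hk
      have hjk : j ∈ S.erase k := mem_erase.2 ⟨(ne_of_mem_erase hk).symm, hj⟩
      rw [P0_neg c hjk, map_zero, smul_zero]
    rw [h1, add_zero]
  · rw [v_neg h _ _ hj, u_neg h _ hj, map_zero, smul_zero, P0_pos _ hj, sub_self]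

theorem decomp (w : Co x V') : w = i0 x h (p0 x h w) + u x h (t x h w) := by
  funext S
  rw [Pi.add_apply]
  by_cases hj : j ∈ S
  · rw [i0_neg h _ hj, u_t h _ hj, zero_add]
  · rw [i0_pos h _ hj, p0_pos h _ hj, u_neg h _ hj, add_zero, res_res, res_self]

theorem P0_p0 (w : Co x V') : P0 x j V (p0 x h w) = p0 x h w := by
  funext S
  by_cases hj : j ∈ S
  · rw [P0_neg _ hj, p0_neg h _ hj]
  · rw [P0_pos _ hj]

end Identities

end Q43.FC
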