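import Pool.Agent.Q43.FC.Top

/-!
# Local cohomology, its Frobenius action, and the theorem
-/

set_option autoImplicit false
set_option linter.unusedVariables false
set_option linter.unusedSectionVars false

namespace Q43.FC

open Finset IsLocalRing

variable {R : Type*} [CommRing R] {d : ℕ}

/-- The cocycles of degree `i` of the Cech complex of `x`: the cochains of degree `i` are the families
`(c S)`, `c S ∈ R_{x_S}`, `S` of size `i`. -/
noncomputable def CZ (x : Fin d → R) (i : ℕ) : Submodule R (Co x id) := Z x monotone_id 1 i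

/-- The coboundaries of degree `i` of the Cech complex of `x`. -/
noncomputable def CB (x : Fin d → R) (i : ℕ) : Submodule R (Co x id) := B x monotone_id 1 i

/-- The length of the `i`-th Cech cohomology module `H^i_x(R)`. If `x` is a system of parameters of the
local ring `R`, then `H^i_x(R)` is the local cohomology module `H^i_m(R)`. -/
noncomputable def cohLength (x : Fin d → R) (i : ℕ) : ℕ∞ :=
  quotLength (CZ x i) (CB x i)

variable (p : ℕ) [hp : Fact p.Prime] [hc : CharP R p]

theorem ae_const (e : ℕ) : ae p (1 : Fin d → R) e = 1 := by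
  funext k
  simp [ae]

/-- `c` is a cocycle of degree `i` whose class in `H^i_x(R)` is killed by some power `F^e` of the
Frobenius. The Frobenius action `F` on `H^i_x(R)` is induced by the `p`-th power on the components. -/
def IsNil (x : Fin d → R) (i : ℕ) (c : Co x id) : Prop :=
  c ∈ CZ x i ∧ ∃ e : ℕ, (fun S => c S ^ p ^ e) ∈ CB x i

theorem mem_NZ_iff (x : Fin d → R) (i : ℕ) (c : Co x id) :
    c ∈ NZ p x (monotone_id : Monotone (id : Finset (Fin d) → _)) 1 i ↔ IsNil p x i c := by
  constructor
  · rintro ⟨h1, e, h2⟩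
    rw [ae_const] at h2
    exact ⟨h1, e, h2⟩
  · rintro ⟨h1, e, h2⟩
    refine ⟨h1, e, ?_⟩
    rw [ae_const]
    exact h2

variable {p} in
theorem IsNil.add {x : Fin d → R} {i : ℕ} {c c' : Co x id} (h : IsNil p x i c)
    (h' : IsNil p x i c') : IsNil p x i (c + c') := by
  rw [← mem_NZ_iff] at h h' ⊢
  exact Submodule.add_mem _ h h'

theorem IsNil.zero (x : Fin d → R) (i : ℕ) : IsNil p x i 0 := by
  rw [← mem_NZ_iff]
  exact Submodule.zero_mem _

variable {p} in
theorem IsNil.smul {x : Fin d → R} {i : ℕ} (r : R) {c : Co x id} (h : IsNil p x i c) :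
    IsNil p x i (r • c) := by
  rw [← mem_NZ_iff] at h ⊢
  exact Submodule.smul_mem _ r h

/-- The module of the cocycles of degree `i` whose class in `H^i_x(R)` is nilpotent. -/
def nilZ (x : Fin d → R) (i : ℕ) : Submodule R (Co x id) where
  carrier := {c | IsNil p x i c}
  zero_mem' := IsNil.zero p x i
  add_mem' := IsNil.add
  smul_mem' := fun r _ h => IsNil.smul r h

/-- The length of the nilpotent part `0^F` of `H^i_x(R)`. -/
noncomputable def nilLength (x : Fin d → R) (i : ℕ) : ℕ∞ :=
  quotLength (nilZ p x i) (CB x i)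

/-- The length of `I^F / I`, where `I^F` is the Frobenius closure of the ideal `I`. -/
noncomputable def closureLength (I : Ideal R) : ℕ∞ :=
  quotLength (frobClosure p I) I

theorem nilLength_eq (x : Fin d → R) (i : ℕ) :
    nilLength p x i = len p x (monotone_id : Monotone (id : Finset (Fin d) → _)) 1 i := by
  have h : nilZ p x i = NZ p x (monotone_id : Monotone (id : Finset (Fin d) → _)) 1 i := by
    ext c
    exact (mem_NZ_iff p x i c).symm
  rw [nilLength, len, h]
  rfl

/-- Elements of the maximal ideal act nilpotently on modules of finite length. -/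
theorem nilp_of_length [IsLocalRing R] {M : Type*} [AddCommGroup M] [Module R M]
    (hM : Module.length R M ≠ ⊤) {y : R} (hy : y ∈ maximalIdeal R) : ∃ n : ℕ, ∀ z : M, y ^ n • z = 0 := by
  rw [Module.length_ne_top_iff, isFiniteLength_iff_isNoetherian_isArtinian] at hM
  obtain ⟨hN, hA⟩ := hM
  let f : ℕ →o (Submodule R M)ᵒᵈ :=
    { toFun := fun n => OrderDual.toDual (Ideal.span {y ^ n} • (⊤ : Submodule R M))
      monotone' := by
        intro m n hmn
        apply Submodule.smul_mono_left
        rw [Ideal.span_singleton_le_span_singleton]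
        exact pow_dvd_pow y hmn }
  obtain ⟨n, hn⟩ := IsArtinian.monotone_stabilizes f
  have h1 : Ideal.span {y ^ n} • (⊤ : Submodule R M) =
      Ideal.span {y} • (Ideal.span {y ^ n} • (⊤ : Submodule R M)) := by
    have h2 : Ideal.span {y ^ n} • (⊤ : Submodule R M) =
        Ideal.span {y ^ (n + 1)} • (⊤ : Submodule R M) := hn (n + 1) (Nat.le_succ n)
    conv_lhs => rw [h2]
    rw [← Submodule.mul_smul, Ideal.span_singleton_mul_span_singleton, pow_succ']
  have h2 : Ideal.span {y ^ n} • (⊤ : Submodule R M) = ⊥ := by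
    apply Submodule.eq_bot_of_le_smul_of_le_jacobson_bot (Ideal.span {y}) _ (IsNoetherian.noetherian _)
      h1.le
    rw [IsLocalRing.jacobson_eq_maximalIdeal ⊥ bot_ne_top, Ideal.span_singleton_le_iff_mem]
    exact hy
  refine ⟨n, fun z => ?_⟩
  have h3 : y ^ n • z ∈ Ideal.span {y ^ n} • (⊤ : Submodule R M) :=
    Submodule.smul_mem_smul (Ideal.mem_span_singleton_self _) Submodule.mem_top
  rwa [h2, Submodule.mem_bot] at h3

theorem Ann_base [IsLocalRing R] {x : Fin d → R} (hx : ∀ k, x k ∈ maximalIdeal R)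
    (hCM : ∀ i < d, cohLength x i ≠ ⊤) :
    ∃ n, Ann p x (monotone_id : Monotone (id : Finset (Fin d) → _)) 1 n := by
  have h1 : ∀ i k : Fin d, ∃ n : ℕ, ∀ z : CZ x i ⧸ (CB x i).submoduleOf (CZ x i),
      x k ^ n • z = 0 := fun i k => nilp_of_length (hCM i i.2) (hx k)
  choose n hn using h1
  refine ⟨∑ i, ∑ k, n i k, ?_⟩
  intro e k s hs z hz
  rw [ae_const] at hz ⊢
  have h2 := hn ⟨s, hs⟩ k (Submodule.Quotient.mk ⟨z, hz⟩)
  rw [← Submodule.Quotient.mk_smul, Submodule.Quotient.mk_eq_zero] at h2
  have h3 : x k ^ n ⟨s, hs⟩ k • z ∈ CB x s := h2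
  have h4 : n ⟨s, hs⟩ k ≤ ∑ i, ∑ k, n i k :=
    (single_le_sum (f := fun k => n ⟨s, hs⟩ k) (fun _ _ => Nat.zero_le _) (mem_univ k)).trans
      (single_le_sum (f := fun i => ∑ k, n i k) (fun _ _ => Nat.zero_le _) (mem_univ (⟨s, hs⟩ : Fin d)))
  obtain ⟨m, hm⟩ := Nat.exists_eq_add_of_le' h4
  have h5 := Submodule.smul_mem _ (x k ^ m) h3
  rw [smul_smul, ← pow_add, ← hm] at h5
  exact h5

/-- The main theorem. -/
theorem main [IsLocalRing R] {x : Fin d → R} (hx : ∀ k, x k ∈ maximalIdeal R)
    (hCM : ∀ i < d, cohLength x i ≠ ⊤) :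
    closureLength p (Ideal.span (Set.range x)) ≤
      ∑ i ∈ range (d + 1), (d.choose i : ℕ∞) * nilLength p x i := by
  obtain ⟨n, hn⟩ := Ann_base p hx hCM
  refine (main_len p hn).trans (sum_le_sum fun i _ => ?_)
  rw [nilLength_eq]

end Q43.FC
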