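import Pool.Agent.Q43.FC.Main

/-!
# The Koszul end: Frobenius closure
-/

set_option autoImplicit false
set_option linter.unusedVariables false
set_option linter.unusedSectionVars false

namespace Q43.FC

open Finset

section

variable {R : Type*} [CommRing R] {d : ℕ} {x : Fin d → R} {V : Finset (Fin d) → Finset (Fin d)}

theorem bij_empty {T : Finset (Fin d)} (hT : T = ∅) :
    Function.Bijective (algebraMap R (Loc x T)) := by
  subst hT
  have h : Submonoid.powers (∏ k ∈ (∅ : Finset (Fin d)), x k) ≤ IsUnit.submonoid R := by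
    rintro _ ⟨n, rfl⟩
    simp
  have h2 := (IsLocalization.atUnits R (Submonoid.powers (∏ k ∈ (∅ : Finset (Fin d)), x k))
    (S := Loc x ∅) h).bijective
  convert! h2

/-- The top component. -/
noncomputable def iota (x : Fin d → R) (V : Finset (Fin d) → Finset (Fin d)) : R →ₗ[R] Co x V where
  toFun r := fun S => if S = univ then algebraMap R _ r else 0
  map_add' r r' := by
    funext S
    rw [Pi.add_apply]
    split_ifs <;> simp
  map_smul' r c := by
    funext S
    rw [Pi.smul_apply]
    split_ifs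
    · rw [smul_eq_mul, map_mul, RingHom.id_apply, Algebra.smul_def]
    · simp

theorem iota_univ (r : R) : iota x V r univ = algebraMap R _ r := if_pos rfl

theorem iota_ne (r : R) {S : Finset (Fin d)} (hS : S ≠ univ) : iota x V r S = 0 := if_neg hS

theorem card_univ_iff {S : Finset (Fin d)} : S.card = d ↔ S = univ := by
  constructor
  · intro h
    rw [← card_eq_iff_eq_univ, h, Fintype.card_fin]
  · rintro rfl
    rw [card_univ, Fintype.card_fin]

theorem iota_Deg (r : R) : iota x V r ∈ Deg x V d := fun S hS =>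
  iota_ne r fun h => hS (card_univ_iff.2 h)

theorem iota_Z (hV : Monotone V) (a : Fin d → R) (r : R) : iota x V r ∈ Z x hV a d := by
  refine ⟨iota_Deg r, ?_⟩
  rw [SetLike.mem_coe, LinearMap.mem_ker]
  funext S
  rw [D_apply]
  apply sum_eq_zero
  intro k hk
  rw [iota_ne r, map_zero, smul_zero]
  intro h
  exact notMem_erase k S (h ▸ mem_univ k)

theorem iota_B (hV : Monotone V) (a : Fin d → R) {r : R} (hr : r ∈ Ideal.span (Set.range a)) :
    iota x V r ∈ B x hV a d := by
  obtain ⟨c, rfl⟩ := Ideal.mem_span_range_iff_exists_fun.1 hr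
  set b : Co x V := fun S => algebraMap R _
    (∑ k, if S = univ.erase k then sgn R k univ * c k else 0) with hb
  have hbk : ∀ k, b (univ.erase k) = algebraMap R _ (sgn R k univ * c k) := by
    intro k
    rw [hb]
    simp only
    congr 1
    rw [sum_eq_single k]
    · rw [if_pos rfl]
    · intro l _ hl
      rw [if_neg]
      intro h
      exact notMem_erase l univ (h ▸ mem_erase.2 ⟨hl, mem_univ l⟩)
    · exact fun h => absurd (mem_univ k) h
  have hbP : b ∈ Pre x V d := by
    intro S hS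
    rw [hb]
    simp only
    rw [sum_eq_zero, map_zero]
    intro k _
    rw [if_neg]
    rintro rfl
    apply hS
    rw [card_erase_add_one (mem_univ k), card_univ, Fintype.card_fin]
  refine ⟨b, hbP, ?_⟩
  funext S
  by_cases hS : S = univ
  · subst hS
    rw [iota_univ, D_apply, map_sum]
    apply sum_congr rfl
    intro k _
    rw [hbk, AlgHom.commutes, ← algebraMap_smul (Loc x (V univ)) (sgn R k univ * a k), smul_eq_mul,
      ← map_mul]
    congr 1
    linear_combination (c k * a k) * sgn_sq (R := R) k univ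
  · rw [iota_ne _ hS]
    exact D_mem_Deg hbP S fun h => hS (card_univ_iff.1 h)

theorem of_iota_B (hV : Monotone V) (hVe : ∀ S, V S = ∅) (a : Fin d → R) {r : R}
    (hr : iota x V r ∈ B x hV a d) : r ∈ Ideal.span (Set.range a) := by
  obtain ⟨b, hb, hbr⟩ := hr
  have h1 := congrFun hbr univ
  rw [iota_univ, D_apply] at h1
  have h2 : ∀ k : Fin d, ∃ y : R, algebraMap R (Loc x (V univ)) y =
      res x (hV (erase_subset k univ)) (b (univ.erase k)) := fun k =>
    (bij_empty (x := x) (hVe univ)).2 _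
  choose y hy using h2
  have h3 : algebraMap R (Loc x (V univ)) (∑ k, sgn R k univ * a k * y k) =
      algebraMap R (Loc x (V univ)) r := by
    rw [← h1, map_sum]
    apply sum_congr rfl
    intro k _
    rw [← hy, ← algebraMap_smul (Loc x (V univ)) (sgn R k univ * a k), smul_eq_mul, ← map_mul]
  have h4 := (bij_empty (x := x) (hVe univ)).1 h3
  rw [← h4]
  apply Submodule.sum_mem
  intro k _
  have : sgn R k univ * a k * y k = (sgn R k univ * y k) * a k := by ring
  rw [this]
  exact Ideal.mul_mem_left _ _ (Ideal.subset_span ⟨k, rfl⟩)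

end

variable {R : Type*} [CommRing R] {d : ℕ} (p : ℕ) [hp : Fact p.Prime] [hc : CharP R p]
variable {x : Fin d → R} {V : Finset (Fin d) → Finset (Fin d)}

theorem Fr_iota (e : ℕ) (r : R) : Fr p x V e (iota x V r) = iota x V (r ^ p ^ e) := by
  funext S
  rw [Fr_apply]
  by_cases hS : S = univ
  · subst hS
    rw [iota_univ, iota_univ, map_pow]
  · rw [iota_ne _ hS, iota_ne _ hS, zero_pow (pow_ne_zero _ hp.out.ne_zero)]

theorem frobClosure_le (I : Ideal R) (r : R) (e f : ℕ) (hef : e ≤ f)
    (hr : r ^ p ^ e ∈ Ideal.span ((fun y => y ^ p ^ e) '' (I : Set R))) :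
    r ^ p ^ f ∈ Ideal.span ((fun y => y ^ p ^ f) '' (I : Set R)) := by
  obtain ⟨g, rfl⟩ := Nat.exists_eq_add_of_le hef
  have h1 := Ideal.mem_map_of_mem (fr p (CharP.cast_eq_zero R p) g) hr
  rw [Ideal.map_span] at h1
  have h2 : fr p (CharP.cast_eq_zero R p) g (r ^ p ^ e) = r ^ p ^ (e + g) := by
    rw [pow_add, pow_mul]; rfl
  rw [h2] at h1
  refine Ideal.span_mono ?_ h1
  rintro _ ⟨_, ⟨y, hy, rfl⟩, rfl⟩
  refine ⟨y, hy, ?_⟩
  simp only
  rw [pow_add, pow_mul]; rfl

theorem frobClosure_add (I : Ideal R) {r r' : R}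
    (h : ∃ e : ℕ, r ^ p ^ e ∈ Ideal.span ((fun y => y ^ p ^ e) '' (I : Set R)))
    (h' : ∃ e : ℕ, r' ^ p ^ e ∈ Ideal.span ((fun y => y ^ p ^ e) '' (I : Set R))) :
    ∃ e : ℕ, (r + r') ^ p ^ e ∈ Ideal.span ((fun y => y ^ p ^ e) '' (I : Set R)) := by
  obtain ⟨e, he⟩ := h
  obtain ⟨f, hf⟩ := h'
  refine ⟨e + f, ?_⟩
  have h1 : (r + r') ^ p ^ (e + f) = r ^ p ^ (e + f) + r' ^ p ^ (e + f) :=
    (fr p (CharP.cast_eq_zero R p) (e + f)).map_add r r'
  rw [h1]
  exact Ideal.add_mem _ (frobClosure_le p I r e _ (Nat.le_add_right e f) he)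
    (frobClosure_le p I r' f _ (Nat.le_add_left f e) hf)

theorem frobClosure_smul (I : Ideal R) (c : R) {r : R}
    (h : ∃ e : ℕ, r ^ p ^ e ∈ Ideal.span ((fun y => y ^ p ^ e) '' (I : Set R))) :
    ∃ e : ℕ, (c • r) ^ p ^ e ∈ Ideal.span ((fun y => y ^ p ^ e) '' (I : Set R)) := by
  obtain ⟨e, he⟩ := h
  refine ⟨e, ?_⟩
  rw [smul_eq_mul, mul_pow]
  exact Ideal.mul_mem_left _ _ he

/-- The Frobenius closure of an ideal: `r ^ (p ^ e)` lies in the ideal generated by the `p ^ e`-th
powers of the elements of the ideal, for some `e`. -/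
def frobClosure (I : Ideal R) : Ideal R where
  carrier := {r | ∃ e : ℕ, r ^ p ^ e ∈ Ideal.span ((fun y => y ^ p ^ e) '' (I : Set R))}
  zero_mem' := ⟨0, by simp⟩
  add_mem' := frobClosure_add p I
  smul_mem' := fun c _ h => frobClosure_smul p I c h

theorem mem_frobClosure (I : Ideal R) (r : R) : r ∈ frobClosure p I ↔
    ∃ e : ℕ, r ^ p ^ e ∈ Ideal.span ((fun y => y ^ p ^ e) '' (I : Set R)) := Iff.rfl

theorem span_pow_le (a : Fin d → R) (e : ℕ) :
    Ideal.span ((fun y => y ^ p ^ e) '' (Ideal.span (Set.range a) : Set R)) ≤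
      Ideal.span (Set.range (ae p a e)) := by
  rw [Ideal.span_le]
  rintro _ ⟨y, hy, rfl⟩
  obtain ⟨c, rfl⟩ := Ideal.mem_span_range_iff_exists_fun.1 hy
  have h1 : (∑ k, c k * a k) ^ p ^ e = ∑ k, (c k * a k) ^ p ^ e :=
    map_sum (fr p (CharP.cast_eq_zero R p) e) _ _
  simp only
  rw [h1]
  apply Submodule.sum_mem
  intro k _
  rw [mul_pow]
  exact Ideal.mul_mem_left _ _ (Ideal.subset_span ⟨k, rfl⟩)

/-- The Koszul end. -/
theorem top_le (hV : Monotone V) (hVe : ∀ S, V S = ∅) :
    quotLength (frobClosure p (Ideal.span (Set.range x))) (Ideal.span (Set.range x)) ≤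
      len p x hV x d := by
  apply length_inj (iota x V)
  · rintro r ⟨e, he⟩
    refine ⟨iota_Z hV x r, e, ?_⟩
    rw [Fr_iota]
    exact iota_B hV _ (span_pow_le p x e he)
  · intro r hr
    exact iota_B hV x hr
  · intro r _ hr
    exact of_iota_B hV hVe x hr

theorem Vj_top (S : Finset (Fin d)) : Vj d d S = ∅ := by
  rw [Vj, filter_eq_empty_iff]
  intro k _
  have := k.2
  omega

theorem aj_top : aj x d = x := by
  funext k
  rw [aj, if_pos k.2]

theorem len_congr {V V' : Finset (Fin d) → Finset (Fin d)} (hV : Monotone V) (hV' : Monotone V')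
    {a a' : Fin d → R} (h1 : V = V') (h2 : a = a') (s : ℕ) : len p x hV a s = len p x hV' a' s := by
  subst h1
  subst h2
  rfl

theorem Ann_congr {V V' : Finset (Fin d) → Finset (Fin d)} (hV : Monotone V) (hV' : Monotone V')
    {a a' : Fin d → R} (h1 : V = V') (h2 : a = a') {n : ℕ} (hA : Ann p x hV a n) :
    Ann p x hV' a' n := by
  subst h1
  subst h2
  exact hA

theorem Vj_zero : Vj d 0 = id := by
  funext S
  rw [Vj, filter_eq_self.2 fun k _ => Nat.zero_le _]
  rfl

theorem aj_zero : aj x 0 = 1 := by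
  funext k
  rw [aj, if_neg (Nat.not_lt_zero _)]
  rfl

/-- The inequality, in terms of the Cech complex. -/
theorem main_len {n : ℕ} (hA : Ann p x (monotone_id : Monotone (id : Finset (Fin d) → _)) 1 n) :
    quotLength (frobClosure p (Ideal.span (Set.range x))) (Ideal.span (Set.range x)) ≤
      ∑ i ∈ range (d + 1), ((d.choose i : ℕ) : ℕ∞) *
        len p x (monotone_id : Monotone (id : Finset (Fin d) → _)) 1 i := by
  have h0 := Ann_congr p (monotone_id : Monotone (id : Finset (Fin d) → _)) (Vj_mono d 0)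
    Vj_zero.symm (aj_zero (x := x)).symm hA
  have h1 := len_all p h0 d le_rfl d le_rfl
  have h2 := top_le p (x := x) (Vj_mono d d) Vj_top
  rw [len_congr p (Vj_mono d d) (Vj_mono d d) rfl aj_top] at h1
  refine (h2.trans h1).trans (le_of_eq ?_)
  apply sum_congr rfl
  intro i hi
  rw [mem_range] at hi
  rw [Nat.choose_symm (by omega), len_congr p (Vj_mono d 0) monotone_id Vj_zero aj_zero]

end Q43.FC
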